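import Pool.Agent.W345.VO.Stm

/-!
Project VO: generation, locality of the generators, existence of the vertex algebra.
-/

namespace Pool.Agent.W608.VO

open Pool.Agent.W345.VO MvPolynomial

theorem sz_zero (ε : ℂ) : sz ε 0 = 1 := by
  unfold sz
  rw [if_pos le_rfl]
  exact ss_zero ε

theorem sz_neg (ε : ℂ) (j : ℤ) (h : j < 0) : sz ε j = 0 := by
  unfold sz
  rw [if_neg (by omega)]

theorem EE_ee (hB : S_BAS) (ε n k : ℤ) (h : -n - 1 - 2 * ε * k = 0) :
    EE ε n (ee k) = ee (k + ε) := by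
  rw [hB.1, h, sz_zero]
  rfl

theorem EE_ee_zero (hB : S_BAS) (ε n k : ℤ) (h : -n - 1 - 2 * ε * k < 0) :
    EE ε n (ee k) = 0 := by
  rw [hB.1, sz_neg _ _ h, Finsupp.single_zero]

theorem gen : S_BAS → S_EF → S_FOCK → S_GEN := by
  intro hB hEF hF S h0 hE hE'
  have hh : ∀ (m : ℤ) (v : VV), v ∈ S → hOp m v ∈ S := by
    intro m v hv
    have h1 := hEF m 0 v
    rw [add_zero] at h1
    have h2 : hOp m v = (EE 1 m (EE (-1) 0 v) - EE (-1) 0 (EE 1 m v)) -
        (if m = 0 then (m : ℂ) else 0) • v := by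
      rw [h1]
      abel
    rw [h2]
    exact S.sub_mem (S.sub_mem (hE _ _ (hE' _ _ hv)) (hE' _ _ (hE _ _ hv))) (S.smul_mem _ hv)
  have hp : ∀ k : ℕ, ee (k : ℤ) ∈ S := by
    intro k
    induction k with
    | zero => simpa using h0
    | succ k ih =>
      have h1 := hE (-1 - 2 * (k : ℤ)) _ ih
      rw [EE_ee hB _ _ _ (by ring)] at h1
      simpa using h1
  have hn : ∀ k : ℕ, ee (-(k : ℤ)) ∈ S := by
    intro k
    induction k with
    | zero => simpa using h0
    | succ k ih =>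
      have h1 := hE' (-1 + 2 * (-(k : ℤ))) _ ih
      rw [EE_ee hB _ _ _ (by ring)] at h1
      have h2 : (-(k : ℤ) + -1) = -((k + 1 : ℕ) : ℤ) := by
        push_cast
        ring
      rwa [h2] at h1
  apply hF.2 S
  · intro k
    rcases Int.eq_nat_or_neg k with ⟨n, rfl | rfl⟩
    · exact hp n
    · exact hn n
  · intro l v hv
    exact hh _ _ hv

theorem bc_zero_zero : bc 0 0 = 1 := by
  unfold bc
  simp

theorem bc_zero_succ (i : ℕ) (h : i ≠ 0) : bc 0 i = 0 := by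
  unfold bc
  obtain ⟨j, rfl⟩ := Nat.exists_eq_succ_of_ne_zero h
  have h1 : Ring.choose ((0 : ℕ) : ℤ) (j + 1) = ((Nat.choose 0 (j + 1) : ℕ) : ℤ) :=
    Ring.choose_natCast 0 (j + 1)
  rw [Nat.choose_zero_succ] at h1
  simp only [Nat.cast_zero] at h1
  rw [Nat.succ_eq_add_one, h1]
  simp

theorem bc_two (i : ℕ) : bc 2 i = (Nat.choose 2 i : ℂ) := by
  unfold bc
  have h1 : Ring.choose ((2 : ℕ) : ℤ) i = ((Nat.choose 2 i : ℕ) : ℤ) :=
    Ring.choose_natCast 2 i
  have h2 : ((2 : ℕ) : ℤ) = 2 := rfl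
  rw [h2] at h1
  rw [h1]
  simp

theorem RR_zero (a b : ℤ → Module.End ℂ VV) (p q : ℤ) (v : VV) :
    RR a b 0 p q v = a p (b q v) - b q (a p v) := by
  unfold RR
  rw [finsum_eq_single _ 0]
  · unfold trm
    rw [bc_zero_zero]
    simp
  · intro i hi
    unfold trm
    rw [bc_zero_succ i hi]
    simp

theorem RR_two (a b : ℤ → Module.End ℂ VV) (p q : ℤ) (v : VV) :
    RR a b 2 p q v = (a (p + 2) (b q v) - b q (a (p + 2) v)) -
      (2 : ℂ) • (a (p + 1) (b (q + 1) v) - b (q + 1) (a (p + 1) v)) +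
      (a p (b (q + 2) v) - b (q + 2) (a p v)) := by
  unfold RR
  rw [finsum_eq_sum_of_support_subset (s := Finset.range 3)]
  · rw [Finset.sum_range_succ, Finset.sum_range_succ, Finset.sum_range_one]
    unfold trm
    rw [bc_two, bc_two, bc_two]
    have e1 : p + 2 - ((0 : ℕ) : ℤ) = p + 2 := by simp
    have e2 : q + ((0 : ℕ) : ℤ) = q := by simp
    have e3 : q + 2 - ((0 : ℕ) : ℤ) = q + 2 := by simp
    have e4 : p + ((0 : ℕ) : ℤ) = p := by simp
    have e5 : p + 2 - ((1 : ℕ) : ℤ) = p + 1 := by push_cast; ring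
    have e6 : q + ((1 : ℕ) : ℤ) = q + 1 := by simp
    have e7 : q + 2 - ((1 : ℕ) : ℤ) = q + 1 := by push_cast; ring
    have e8 : p + ((1 : ℕ) : ℤ) = p + 1 := by simp
    have e9 : p + 2 - ((2 : ℕ) : ℤ) = p := by push_cast; ring
    have e10 : q + ((2 : ℕ) : ℤ) = q + 2 := by simp
    have e11 : q + 2 - ((2 : ℕ) : ℤ) = q := by push_cast; ring
    have e12 : p + ((2 : ℕ) : ℤ) = p + 2 := by simp
    rw [e1, e2, e3, e4, e5, e6, e7, e8, e9, e10, e11, e12]
    have c0 : Nat.choose 2 0 = 1 := rfl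
    have c1 : Nat.choose 2 1 = 2 := rfl
    have c2 : Nat.choose 2 2 = 1 := rfl
    rw [c0, c1, c2]
    have s : ((-1 : ℂ) ^ (2 : ℤ)) = 1 := by norm_num
    rw [s]
    norm_num
    module
  · intro i hi
    rw [Function.mem_support] at hi
    by_contra hc
    apply hi
    unfold trm
    have h3 : 2 < i := by
      simp only [Finset.coe_range, Set.mem_Iio, not_lt] at hc
      omega
    rw [bc_two, Nat.choose_eq_zero_of_lt h3]
    simp

theorem loc_pm (hEF : S_EF) : Loc (EE 1) (EE (-1)) := by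
  refine ⟨2, fun p q v => ?_⟩
  have h2 : ((2 : ℕ) : ℤ) = 2 := rfl
  rw [h2, RR_two, hEF, hEF, hEF]
  have e1 : p + 2 + q = p + q + 2 := by ring
  have e2 : p + 1 + (q + 1) = p + q + 2 := by ring
  have e3 : p + (q + 2) = p + q + 2 := by ring
  rw [e1, e2, e3]
  by_cases h : p + q + 2 = 0
  · rw [if_pos h, if_pos h, if_pos h]
    push_cast
    module
  · rw [if_neg h, if_neg h, if_neg h]
    module

theorem loc_mp (hEF : S_EF) : Loc (EE (-1)) (EE 1) := by
  refine ⟨2, fun p q v => ?_⟩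
  have h2 : ((2 : ℕ) : ℤ) = 2 := rfl
  have hF : ∀ (m n : ℤ) (v : VV), EE (-1) m (EE 1 n v) - EE 1 n (EE (-1) m v) =
      -(hOp (n + m) v + (if n + m = 0 then (n : ℂ) else 0) • v) := by
    intro m n v
    rw [← hEF n m v]
    abel
  rw [h2, RR_two, hF, hF, hF]
  have e1 : q + (p + 2) = p + q + 2 := by ring
  have e2 : q + 1 + (p + 1) = p + q + 2 := by ring
  have e3 : q + 2 + p = p + q + 2 := by ring
  rw [e1, e2, e3]
  by_cases h : p + q + 2 = 0
  · rw [if_pos h, if_pos h, if_pos h]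
    push_cast
    module
  · rw [if_neg h, if_neg h, if_neg h]
    module

theorem locm : S_EEC → S_EF → S_LOCM := by
  intro hC hEF ε ε' hε hε'
  have same : ∀ η : ℤ, (η = 1 ∨ η = -1) → Loc (EE η) (EE η) := by
    intro η hη
    refine ⟨0, fun p q v => ?_⟩
    have h0 : ((0 : ℕ) : ℤ) = 0 := rfl
    rw [h0, RR_zero, hC η hη p q v, sub_self]
  rcases hε with rfl | rfl <;> rcases hε' with rfl | rfl
  · exact same 1 (Or.inl rfl)
  · exact loc_pm hEF
  · exact loc_mp hEF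
  · exact same (-1) (Or.inr rfl)

theorem va : S_REC → S_BAS → S_TE → S_FLM → S_GEN → S_LOCM → S_VA := by
  intro hR hB hT hFL hG hL
  have hT0 : TT (ee 0) = 0 := by
    rw [hB.2.1]
    simp
  have hsign : ∀ a ∈ ({EE 1, EE (-1)} : Set (ℤ → Module.End ℂ VV)),
      ∃ ε : ℤ, (ε = 1 ∨ ε = -1) ∧ a = EE ε := by
    intro a ha
    rcases ha with rfl | ha
    · exact ⟨1, Or.inl rfl, rfl⟩
    · rw [Set.mem_singleton_iff] at ha
      exact ⟨-1, Or.inr rfl, ha⟩
  obtain ⟨A, hA1, hA2, hA3⟩ := hR VV TT (ee 0) {EE 1, EE (-1)} hT0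
    (by
      intro a ha
      obtain ⟨ε, hε, rfl⟩ := hsign a ha
      refine ⟨hFL.1 ε, fun n v => hT ε hε n v, fun n hn => ?_⟩
      apply EE_ee_zero hB
      simp only [mul_zero]
      omega)
    (by
      intro a ha b hb
      obtain ⟨ε, hε, rfl⟩ := hsign a ha
      obtain ⟨ε', hε', rfl⟩ := hsign b hb
      exact hL ε ε' hε hε')
    (by
      intro S hS h
      exact hG S hS (fun n v hv => h _ (Or.inl rfl) n v hv)
        (fun n v hv => h _ (Or.inr rfl) n v hv))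
  have key : ∀ ε : ℤ, EE ε (-1) (ee 0) = ee ε := by
    intro ε
    rw [EE_ee hB _ _ _ (by ring), zero_add]
  refine ⟨A, hA1, ?_, ?_, hA3⟩
  · have h1 := hA2 (EE 1) (Or.inl rfl)
    rwa [key] at h1
  · have h1 := hA2 (EE (-1)) (Or.inr rfl)
    rwa [key] at h1

end Pool.Agent.W608.VO
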